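import Pool.Agent.K1H75.AndQ.Main
import Pool.Agent.K1H75.AndQ.Sane

/-!
# Deterministic versus quantum communication for AND-composed functions: a negative answer

Let `f z` be the parity of the number of leading ones of `z ∈ {0,1}^n`. Then
`F(x, y) = f(x ∧ y)` is the parity of `min (lead x) (lead y)`. For `n = 2 ^ (2 ^ a + 1)` it has
deterministic communication complexity at least `2 ^ a` (fooling set), and bounded-error quantum
communication complexity with entanglement at most `(a + 2) (a + 5) + 3` (binary search with random
hashing, a public-coin classical protocol). So there is no polynomial relation.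

The definitions (`DProt`, `D`, `QProt`, `Qstar`, `andComp`) are in
`Pool/Agent/K1H75/AndQ/Defs.lean`; `Qstar_attained` in `Sane.lean` shows that `Qstar` is a minimum
over a nonempty set.
-/

set_option autoImplicit false

namespace Pool.Agent.Results.MP_799357_lc.NotPolynomiallyRelated

open Pool.Agent.K1H75.AndQ

/-- For every polynomial `P` there are `n ≥ 1` and `f : {0,1}^n → {0,1}` such that the AND-composed
function `F(x, y) = f(x ∧ y)` satisfies `D(F) > P(Q*(F))`. -/
theorem result : ∀ P : Polynomial ℝ, ∃ n : ℕ, 1 ≤ n ∧ ∃ f : (Fin n → Bool) → Bool,
    P.eval (Qstar (andComp f) : ℝ) < (D (andComp f) : ℝ) :=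
  separation

end Pool.Agent.Results.MP_799357_lc.NotPolynomiallyRelated
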